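import Mathlib
import Pool.Agent.Helper83.CookLevin
import Pool.Agent.Helper73.UVCHard

namespace Pool.Agent.Results.MP_148663_lc.CoNPHard

open Pool.Agent.Helper81.CC Pool.Agent.Helper73.UVC

/-- The decision problem of MP_148663 is coNP-hard, even on systems all of whose matrices `A(u)`
are square: every problem `L` in coNP reduces to it by a polynomial-time map whose values are
such systems. -/
theorem result : UnimodularVertices.CoNPHard ∧
    ∀ L : Problem, L.InCoNP → ∃ f : L.Inst → SysInst,
      PolyTimeComputable L.enc (encOf SysInst) f ∧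
      ∀ a, SquareAtVertices (instPoly (f a)) ∧
        (L.Yes a ↔ UnimodularAtVertices (instPoly (f a))) := by
  refine ⟨fun L hL => ?_, fun L hL => hard_of_sat Pool.Agent.Helper83.CL.SAT_hardS L hL⟩
  obtain ⟨f, hf, h⟩ := hard_of_sat Pool.Agent.Helper83.CL.SAT_hardS L hL
  exact ⟨f, hf, fun a => (h a).2⟩

end Pool.Agent.Results.MP_148663_lc.CoNPHard
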